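import Pool.Agent.Q255.CU.Stm

set_option autoImplicit false

/-! Project CU, job CUB: integers of an interval with the same exponents modulo three. -/

namespace Pool.Agent.Q26.CU

open Finset Pool.Agent.Q255.CU

noncomputable section

/-- the exponents modulo `3` as natural numbers -/
def g3 (n : ℕ) : ℕ →₀ ℕ := n.factorization.mapRange (fun m : ℕ => m % 3) (by simp)

/-- the integral parts of a third of the exponents -/
def h3 (n : ℕ) : ℕ →₀ ℕ := n.factorization.mapRange (fun m : ℕ => m / 3) (by simp)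

/-- the cube-free part -/
def S3 (n : ℕ) : ℕ := (g3 n).prod (· ^ ·)

/-- the root of the cube part -/
def U3 (n : ℕ) : ℕ := (h3 n).prod (· ^ ·)

lemma g3_apply (n p : ℕ) : g3 n p = n.factorization p % 3 := rfl

lemma h3_apply (n p : ℕ) : h3 n p = n.factorization p / 3 := rfl

lemma fc_apply (n p : ℕ) : fc n p = ((n.factorization p : ℕ) : ZMod 3) := rfl

lemma S3_fac (n : ℕ) : (S3 n).factorization = g3 n := by
  refine Nat.prod_pow_factorization_eq_self fun p hp => ?_
  have h1 : p ∈ n.factorization.support := by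
    rw [Finsupp.mem_support_iff] at hp ⊢
    intro h0
    exact hp (by simp [g3_apply, h0])
  exact Nat.prime_of_mem_primeFactors (by rwa [Nat.support_factorization] at h1)

lemma U3_fac (n : ℕ) : (U3 n).factorization = h3 n := by
  refine Nat.prod_pow_factorization_eq_self fun p hp => ?_
  have h1 : p ∈ n.factorization.support := by
    rw [Finsupp.mem_support_iff] at hp ⊢
    intro h0
    exact hp (by simp [h3_apply, h0])
  exact Nat.prime_of_mem_primeFactors (by rwa [Nat.support_factorization] at h1)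

lemma S3_ne (n : ℕ) : S3 n ≠ 0 := by
  unfold S3
  refine Finset.prod_ne_zero_iff.2 fun p hp => ?_
  have h1 : p ∈ n.factorization.support := by
    rw [Finsupp.mem_support_iff] at hp ⊢
    intro h0
    exact hp (by simp [g3_apply, h0])
  exact pow_ne_zero _ (Nat.prime_of_mem_primeFactors (by rwa [Nat.support_factorization] at h1)).ne_zero

lemma U3_ne (n : ℕ) : U3 n ≠ 0 := by
  unfold U3
  refine Finset.prod_ne_zero_iff.2 fun p hp => ?_
  have h1 : p ∈ n.factorization.support := by
    rw [Finsupp.mem_support_iff] at hp ⊢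
    intro h0
    exact hp (by simp [h3_apply, h0])
  exact pow_ne_zero _ (Nat.prime_of_mem_primeFactors (by rwa [Nat.support_factorization] at h1)).ne_zero

lemma SU (n : ℕ) (hn : n ≠ 0) : S3 n * U3 n ^ 3 = n := by
  refine Nat.eq_of_factorization_eq (mul_ne_zero (S3_ne n) (pow_ne_zero _ (U3_ne n))) hn fun p => ?_
  rw [Nat.factorization_mul (S3_ne n) (pow_ne_zero _ (U3_ne n)), Nat.factorization_pow, S3_fac,
    U3_fac]
  simp only [Finsupp.coe_add, Finsupp.coe_smul, Pi.add_apply, Pi.smul_apply, smul_eq_mul]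
  rw [g3_apply, h3_apply]
  omega

lemma fc_iff (a b : ℕ) : fc a = fc b ↔ S3 a = S3 b := by
  constructor
  · intro h
    unfold S3
    congr 1
    ext p
    rw [g3_apply, g3_apply]
    have h1 := DFunLike.congr_fun h p
    rw [fc_apply, fc_apply] at h1
    exact (ZMod.natCast_eq_natCast_iff' _ _ 3).1 h1
  · intro h
    have h1 : g3 a = g3 b := by rw [← S3_fac, ← S3_fac, h]
    ext p
    have h2 := DFunLike.congr_fun h1 p
    rw [g3_apply, g3_apply] at h2
    rw [fc_apply, fc_apply]
    exact (ZMod.natCast_eq_natCast_iff' _ _ 3).2 h2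

lemma sum_sq {β : Type*} [DecidableEq β] (I : Finset ℕ) (f : ℕ → β) :
    ∑ x ∈ I.image f, ((I.filter (fun a => f a = x)).card : ℝ) ^ 2 =
      ∑ a ∈ I, ((I.filter (fun b => f b = f a)).card : ℝ) := by
  refine Finset.sum_image' (fun a => ((I.filter (fun b => f b = f a)).card : ℝ)) fun a _ => ?_
  have h1 : ∀ j ∈ I.filter (fun j => f j = f a),
      ((I.filter (fun b => f b = f j)).card : ℝ) = ((I.filter (fun b => f b = f a)).card : ℝ) := by
    intro j hj
    rw [(mem_filter.1 hj).2]
  rw [sum_congr rfl h1, sum_const, nsmul_eq_mul, sq]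

/-- cube roots -/
def cr (n : ℕ) : ℝ := (n : ℝ) ^ (1 / 3 : ℝ)

lemma cr_nonneg (n : ℕ) : 0 ≤ cr n := Real.rpow_nonneg (Nat.cast_nonneg _) _

lemma cr_cube (n : ℕ) : cr n ^ 3 = n := by
  unfold cr
  rw [← Real.rpow_natCast, ← Real.rpow_mul (Nat.cast_nonneg _)]
  norm_num

lemma cr_pos {n : ℕ} (hn : 1 ≤ n) : 0 < cr n := Real.rpow_pos_of_pos (by exact_mod_cast hn) _

lemma cr_sum (K : ℕ) : ∑ s ∈ Icc 1 K, 1 / cr s ^ 2 ≤ 3 * cr K := by
  induction K with
  | zero => simpa using cr_nonneg 0
  | succ K ih =>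
    rw [sum_Icc_succ_top (by omega)]
    have h1 := cr_cube (K + 1)
    have h2 := cr_cube K
    have h3 := cr_pos (show 1 ≤ K + 1 by omega)
    have h4 := cr_nonneg K
    push_cast at h1
    set a := cr (K + 1)
    set c := cr K
    have hca : c ≤ a := by
      by_contra hcon
      push Not at hcon
      have := pow_lt_pow_left₀ hcon h3.le (n := 3) (by norm_num)
      linarith
    have h5 : 1 / a ^ 2 ≤ 3 * (a - c) := by
      rw [div_le_iff₀ (by positivity)]
      have h6 : (a - c) * (a ^ 2 + a * c + c ^ 2) = 1 := by ring_nf; linarith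
      have h7 : a ^ 2 + a * c + c ^ 2 ≤ 3 * a ^ 2 := by nlinarith
      have h8 := mul_le_mul_of_nonneg_left h7 (sub_nonneg.2 hca)
      linarith
    linarith

lemma fiber (M N s : ℕ) (_hN : 1 ≤ N) :
    (((Ioc M (M + N)).filter (fun a => S3 a = s)).card : ℝ) ^ 2 ≤
      (((Ioc M (M + N)).filter (fun a => S3 a = s)).card : ℝ) +
        (if s ∈ Icc 1 N then 4 * (cr N ^ 2 * (1 / cr s ^ 2)) else 0) := by
  set F := (Ioc M (M + N)).filter (fun a => S3 a = s) with hF
  have hite : (0 : ℝ) ≤ if s ∈ Icc 1 N then 4 * (cr N ^ 2 * (1 / cr s ^ 2)) else 0 := by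
    split_ifs
    · positivity
    · exact le_rfl
  by_cases hc : F.card ≤ 1
  · have h1 : (F.card : ℝ) ≤ 1 := by exact_mod_cast hc
    have h2 : (0 : ℝ) ≤ F.card := Nat.cast_nonneg _
    nlinarith
  · push Not at hc
    have hmem : ∀ a ∈ F, M < a ∧ a ≤ M + N ∧ s * U3 a ^ 3 = a := by
      intro a ha
      rw [hF, mem_filter, mem_Ioc] at ha
      refine ⟨ha.1.1, ha.1.2, ?_⟩
      have h1 := SU a (by omega)
      rw [ha.2] at h1
      exact h1
    have hinj : Set.InjOn U3 (F : Set ℕ) := by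
      intro a ha b hb hab
      rw [← (hmem a ha).2.2, ← (hmem b hb).2.2, hab]
    set T := F.image U3 with hT
    have hcard : T.card = F.card := card_image_of_injOn hinj
    have hTne : T.Nonempty := by
      rw [← card_pos, hcard]
      omega
    set u0 := T.min' hTne with hu0
    set u1 := T.max' hTne with hu1
    have hle : u0 ≤ u1 := T.min'_le_max' hTne
    obtain ⟨a0, ha0, hau0⟩ := mem_image.1 (T.min'_mem hTne)
    obtain ⟨a1, ha1, hau1⟩ := mem_image.1 (T.max'_mem hTne)
    rw [← hu0] at hau0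
    rw [← hu1] at hau1
    obtain ⟨J, hJ⟩ : ∃ J, u1 = u0 + J := ⟨u1 - u0, by omega⟩
    have hTJ : T.card ≤ J + 1 := by
      have h1 : T ⊆ Icc u0 u1 := fun x hx => mem_Icc.2 ⟨T.min'_le x hx, T.le_max' x hx⟩
      have h2 := card_le_card h1
      rw [Nat.card_Icc] at h2
      omega
    have hJ1 : 1 ≤ J := by omega
    have hs0 : 1 ≤ s := by
      rcases Nat.eq_zero_or_pos s with h | h
      · exfalso
        have := (hmem a0 ha0).2.2
        rw [h, zero_mul] at this
        have h3 := (hmem a0 ha0).1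
        omega
      · exact h
    have hsJ : s * J ^ 3 < N := by
      have h1 := (hmem a0 ha0).2.2
      have h2 := (hmem a1 ha1).2.2
      rw [hau0] at h1
      rw [hau1, hJ] at h2
      have h3 := (hmem a0 ha0).1
      have h4 := (hmem a1 ha1).2.1
      have h5 : u0 ^ 3 + J ^ 3 ≤ (u0 + J) ^ 3 := by
        have : (u0 + J) ^ 3 = u0 ^ 3 + J ^ 3 + 3 * u0 * J * (u0 + J) := by ring
        rw [this]
        exact Nat.le_add_right _ _
      have h6 := Nat.mul_le_mul_left s h5
      rw [mul_add] at h6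
      omega
    have hsN : s ∈ Icc 1 N := by
      rw [mem_Icc]
      refine ⟨hs0, ?_⟩
      have : s * 1 ≤ s * J ^ 3 := Nat.mul_le_mul_left s (Nat.one_le_pow _ _ hJ1)
      omega
    rw [if_pos hsN]
    have hJr : (J : ℝ) ≤ cr N * (1 / cr s) := by
      have hcs := cr_pos hs0
      have h1 : (s : ℝ) * (J : ℝ) ^ 3 ≤ N := by exact_mod_cast hsJ.le
      have h2 : ((J : ℝ) * cr s) ^ 3 ≤ cr N ^ 3 := by
        rw [mul_pow, cr_cube, cr_cube]
        linarith
      have h3 : (J : ℝ) * cr s ≤ cr N :=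
        le_of_pow_le_pow_left₀ (by norm_num) (cr_nonneg N) h2
      rw [mul_one_div, le_div_iff₀ hcs]
      exact h3
    have hFJ : (F.card : ℝ) ≤ 2 * J := by
      have : F.card ≤ 2 * J := by omega
      exact_mod_cast this
    have hFc : (0 : ℝ) ≤ F.card := Nat.cast_nonneg _
    have h9 : (F.card : ℝ) ≤ 2 * (cr N * (1 / cr s)) := by linarith
    have h10 : (F.card : ℝ) ^ 2 ≤ (2 * (cr N * (1 / cr s))) ^ 2 := pow_le_pow_left₀ hFc h9 2
    have h11 : (2 * (cr N * (1 / cr s))) ^ 2 = 4 * (cr N ^ 2 * (1 / cr s ^ 2)) := by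
      rw [mul_pow, mul_pow, div_pow, one_pow]
      norm_num
    linarith

theorem cub : S_CUB := by
  intro M N hN
  classical
  set I := Ioc M (M + N) with hI
  have h0 : ∑ x ∈ I.image fc, ((I.filter (fun a => fc a = x)).card : ℝ) ^ 2 =
      ∑ s ∈ I.image S3, ((I.filter (fun a => S3 a = s)).card : ℝ) ^ 2 := by
    rw [sum_sq, sum_sq]
    refine sum_congr rfl fun a _ => ?_
    congr 2
    exact filter_congr fun b _ => fc_iff b a
  have hgoal : ∑ x ∈ I.image fc, ((I.filter (fun a => fc a = x)).card : ℝ) ^ 2 ≤ 20 * N := by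
    rw [h0]
    have h1 : ∑ s ∈ I.image S3, ((I.filter (fun a => S3 a = s)).card : ℝ) ^ 2 ≤
        ∑ s ∈ I.image S3, ((I.filter (fun a => S3 a = s)).card : ℝ) +
          ∑ s ∈ I.image S3, (if s ∈ Icc 1 N then 4 * (cr N ^ 2 * (1 / cr s ^ 2)) else 0) := by
      rw [← sum_add_distrib]
      exact sum_le_sum fun s _ => fiber M N s hN
    have h2 : ∑ s ∈ I.image S3, ((I.filter (fun a => S3 a = s)).card : ℝ) = N := by
      have h3 := card_eq_sum_card_image S3 I
      have h4 : (I.card : ℝ) = ∑ s ∈ I.image S3, ((I.filter (fun a => S3 a = s)).card : ℝ) := by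
        rw [h3]
        push_cast
        rfl
      rw [← h4, hI, Nat.card_Ioc, Nat.add_sub_cancel_left]
    have h5 : ∑ s ∈ I.image S3, (if s ∈ Icc 1 N then 4 * (cr N ^ 2 * (1 / cr s ^ 2)) else 0) ≤
        12 * (N : ℝ) := by
      rw [← sum_filter]
      calc ∑ s ∈ (I.image S3).filter (fun s => s ∈ Icc 1 N), 4 * (cr N ^ 2 * (1 / cr s ^ 2))
          ≤ ∑ s ∈ Icc 1 N, 4 * (cr N ^ 2 * (1 / cr s ^ 2)) := by
            refine sum_le_sum_of_subset_of_nonneg ?_ fun s _ _ => by positivity
            intro s hs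
            exact (mem_filter.1 hs).2
        _ = 4 * (cr N ^ 2 * ∑ s ∈ Icc 1 N, 1 / cr s ^ 2) := by rw [mul_sum, mul_sum]
        _ ≤ 4 * (cr N ^ 2 * (3 * cr N)) := by
            gcongr
            exact cr_sum N
        _ = 12 * cr N ^ 3 := by ring
        _ = 12 * (N : ℝ) := by rw [cr_cube]
    have h6 : (0 : ℝ) ≤ N := Nat.cast_nonneg _
    linarith
  convert hgoal using 2

end

end Pool.Agent.Q26.CU
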