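import Pool.Agent.Q255.CU.Stm

set_option autoImplicit false

/-! Project CU, job FLM: almost sure properties hold for all finite modifications. -/

namespace Pool.Agent.Q26.CU

open MeasureTheory Finset Pool.Agent.Q255.CU

noncomputable section

lemma m3_singleton (x : ZMod 3) : m3 {x} = (3 : ENNReal)⁻¹ := by
  unfold m3
  rw [PMF.toMeasure_apply_singleton _ _ (MeasurableSet.of_discrete), PMF.uniformOfFintype_apply]
  simp [ZMod.card]

instance : IsProbabilityMeasure m3 := by
  unfold m3
  infer_instance

lemma m3_add (c : ZMod 3) : m3.map (fun x => x + c) = m3 := by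
  refine Measure.ext_of_singleton fun x => ?_
  rw [Measure.map_apply (measurable_of_finite _) (MeasurableSet.of_discrete)]
  have h1 : (fun y : ZMod 3 => y + c) ⁻¹' {x} = {x - c} := by
    ext y
    simp only [Set.mem_preimage, Set.mem_singleton_iff]
    constructor
    · intro h
      rw [← h, add_sub_cancel_right]
    · intro h
      rw [h, sub_add_cancel]
  rw [h1, m3_singleton, m3_singleton]

lemma mp_add (η : ℕ → ZMod 3) : MeasurePreserving (fun ω : ℕ → ZMod 3 => fun i => ω i + η i)
    (Measure.infinitePi fun _ : ℕ => m3) (Measure.infinitePi fun _ : ℕ => m3) := by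
  have hm : Measurable (fun ω : ℕ → ZMod 3 => fun i => ω i + η i) :=
    measurable_pi_lambda _ fun i => (measurable_of_finite (fun x : ZMod 3 => x + η i)).comp
      (measurable_pi_apply i)
  refine ⟨hm, ?_⟩
  have h1 := Measure.infinitePi_map_pi (μ := fun _ : ℕ => m3)
    (f := fun i x => x + η i) (fun i => measurable_of_finite _)
  rw [h1]
  congr 1
  funext i
  exact m3_add (η i)

theorem flm : S_FLM := by
  intro P hP
  have h1 : ∀ η : ℕ →₀ ZMod 3, ∀ᵐ ω ∂(Measure.infinitePi fun _ : ℕ => m3), P (fun i => ω i + η i) :=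
    fun η => (mp_add η).quasiMeasurePreserving.ae hP
  have h2 : ∀ᵐ ω ∂(Measure.infinitePi fun _ : ℕ => m3), ∀ η : ℕ →₀ ZMod 3,
      P (fun i => ω i + η i) := ae_all_iff.2 h1
  filter_upwards [h2] with ω hω ω' hfin
  have h3 := hω (Finsupp.ofSupportFinite (fun i => ω' i - ω i) (by
    refine hfin.subset fun i hi => ?_
    rw [Function.mem_support] at hi
    intro h
    exact hi (sub_eq_zero.2 h)))
  have h4 : (fun i => ω i + (Finsupp.ofSupportFinite (fun i => ω' i - ω i) (by
    refine hfin.subset fun i hi => ?_
    rw [Function.mem_support] at hi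
    intro h
    exact hi (sub_eq_zero.2 h))) i) = ω' := by
    funext i
    rw [Finsupp.ofSupportFinite_coe]
    ring
  rwa [h4] at h3

end

end Pool.Agent.Q26.CU
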